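import Mathlib
import Pool.Agent.Lib.MP_0a9719_co_RR.FinR
import Pool.Agent.Lib.MP_0a9719_co_RR.MulR

/-!
# Graphs which become `r`-colourable by the deletion of few edges at one vertex

Let `r, k ≥ 2`, let `F` be a finite graph which becomes `r`-colourable when at most `k` edges at one
vertex `c` are deleted, and let `A` be an orientation of `F`.
(1) If for every (not necessarily proper) colouring of `V(F)` with `r` colours some vertex has at
    least `k` out-neighbours of its own colour, then `F` has property (P).
Consequence: (2) the complete `(r+1)`-partite graphs with classes of sizes `1`, `k` and `r - 1`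
classes of sizes at least `r(k-1) + 1` have property (P).

Upper bound: a graph on `n` vertices without a copy of `F` has at most
`(1 - 1/r) n^2/2 + (k-1) n/2 + C` edges. Lower bound: complete `r`-partite graphs with disjoint paths
with three vertices (`k = 2`) or disjoint complete graphs with `k + 1` vertices (`k ≥ 3`) in all
classes, with the orientations in which every vertex has fewer than `k` out-neighbours in its own
class.
-/

namespace Pool.Agent.Results.MP_0a9719_co.EdgesAtOneVertex

open _root_.MP_0a9719_co

/-- Let `F` be a finite graph and `r, k ≥ 2`.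
(1) Let `A` be an orientation of `F`, let `c` be a vertex and `K` a set of at most `k` vertices such
that `F - {cx : x ∈ K}` is `r`-colourable, and suppose that for every map `χ : W → Fin r` some vertex
`v` has at least `k` out-neighbours `u` with `χ u = χ v`. Then `F` has property (P).
(2) If `F` is complete `(r+1)`-partite with classes of sizes `1`, `k` and `r - 1` further classes with
at least `r(k-1) + 1` vertices each, then `F` has (P). -/
theorem result {W : Type*} [Finite W] (F : SimpleGraph W) (r k : ℕ) (hr : 2 ≤ r) (hk : 2 ≤ k) :
    (∀ (A : W → W → Prop) (c : W) (K : Set W), IsOr F A → K.ncard ≤ k →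
      (F.deleteEdges {e | ∃ x ∈ K, e = s(c, x)}).Colorable r →
      (∀ χ : W → Fin r, ∃ v, k ≤ {u | χ u = χ v ∧ A v u}.ncard) → PropertyP F) ∧
    (∀ p : W → Fin (r + 1), (∀ u v, F.Adj u v ↔ p u ≠ p v) →
      {u | p u = 0}.ncard = 1 → {u | p u = 1}.ncard = k →
      (∀ i : Fin (r + 1), 2 ≤ i.val → r * (k - 1) + 1 ≤ {u | p u = i}.ncard) →
      PropertyP F) := by
  refine ⟨?_, ?_⟩
  · intro A c K hA hK hbip h
    exact main_col F A hA r k hr hk c K hK hbip h
  · intro p hp h0 h1 h2
    exact MP_0a9719_co_RR.multipartite F r k hr hk p hp h0 h1 h2

end Pool.Agent.Results.MP_0a9719_co.EdgesAtOneVertex
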