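import Mathlib
import Pool.Agent.Lib.MP_0a9719_co.Final

/-!
# The forests with property (P)

Question Q1 of the problem for all forests. Let `F` be a finite forest with at least one edge and let
`smallPairs F` be the number of its components which are a single edge or a path with four
vertices. `F` has property (P) if and only if some component has at least five vertices, or
`smallPairs F = 0`, or `smallPairs F = 1`, no component has exactly three vertices and `F` has
more than one edge.

Negative side: the number of free orientations is bounded by induction on the number of
components. A vertex with many in- and many out-neighbours hosts a star with at most three
edges, a pair of vertices on which three of the four patterns occur often hosts an oriented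
path with three edges; orientations of an arbitrary graph on `q` vertices without a given
oriented path with three edges number at most `(11/3)^q`. Positive side: complete bipartite
graphs with a reversed perfect matching, joins of a complete graph with disjoint `P_3`, `K_4`, and
with disjoint triangles and one paw.
-/

namespace Pool.Agent.Results.MP_0a9719_co.Forests

open _root_.MP_0a9719_co

/-- A finite forest `F` with at least one edge has property (P) iff (i) some component has at
least five vertices, or (ii) no component is `K_2` or `P_4`, or (iii) exactly one component is
`K_2` or `P_4`, no component has three vertices, and `F` has more than one edge. -/
theorem result {W : Type*} [Fintype W] (F : SimpleGraph W) (hF : F.IsAcyclic) (hne : F ≠ ⊥) :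
    PropertyP F ↔
      (∃ c : F.ConnectedComponent, 5 ≤ c.supp.ncard) ∨
      smallPairs F = 0 ∨
      (smallPairs F = 1 ∧ (∀ c : F.ConnectedComponent, c.supp.ncard ≠ 3) ∧
        F.edgeSet.ncard ≠ 1) :=
  classification F hF hne

end Pool.Agent.Results.MP_0a9719_co.Forests
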