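import Mathlib
import Pool.Agent.Lib.MP_0a9719_co.Defs
import Pool.Agent.Lib.MP_0a9719_co_Fan.CfFin
import Pool.Agent.Lib.MP_0a9719_co_RN.DenseN
import Pool.Agent.Lib.MP_0a9719_co_RN.IndN
import Pool.Agent.Lib.MP_0a9719_co_RN.FinN

/-!
# Graphs close to `r`-partite graphs with property (P)

Property (P) for a class of graphs of chromatic number `r + 1`. Let `r ≥ 2` and let `F` be a finite
graph such that

* (a) `F - c` is `r`-colourable for some vertex `c`;
* (b) the vertex set of `F` is the disjoint union of `r` classes, `r - 1` of them independent and one
  inducing a graph of maximum degree at most one;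
* (c) `F` has an orientation `A` such that, for each vertex `v` and each proper `r`-colouring of
  `F - v`, the vertex `v` has at least two out-neighbours of each of the `r` colours.

Then `F` has property (P). Examples are `k ≥ 2` cliques with `r + 1` vertices and exactly one common
vertex `c` (part 2), and for `r = 2` at least two odd cycles with exactly one common vertex `c`: let all
edges at `c` leave `c`.

Proof. The complete `r`-partite graph with parts of size `N` together with a spanning star in the
first part, with centre `u`, has at least `N 2 ^ t` orientations without a copy of `A`, where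
`t = (r choose 2) N ^ 2`: all those in which at most one edge of the star leaves `u`. On the other
hand a graph on `rN` vertices without a copy of `F` has at most `t + C` edges. This is proved by
deleting vertices of small degree; if all degrees are large, the theorem of Erdős and Stone gives
large complete `r`-partite subgraphs, hence a partition of the vertex set into `r` classes with
bounded inner degrees and few missing edges between the classes, and no class contains many disjoint
edges.
-/

set_option autoImplicit false

namespace Pool.Agent.Results.MP_0a9719_co.NearBipartite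

open _root_.MP_0a9719_co _root_.MP_0a9719_co_Fan

/-- `col` is a proper `r`-colouring of the graph `F - v` (its value at `v` is irrelevant). -/
def ColoursOff {W : Type} {r : ℕ} (F : SimpleGraph W) (v : W) (col : W → Fin r) : Prop :=
  ∀ x y, x ≠ v → y ≠ v → F.Adj x y → col x ≠ col y

/-- (1) Let `r ≥ 2`. A finite graph `F` has property (P) if (a) `F - c` is `r`-colourable for some
vertex `c`, (b) its vertex set is the disjoint union of `r` classes, where all but the class `i₀` are
independent and the class `i₀` induces a graph of maximum degree at most one, and (c) it has an
orientation `A` such that, for each vertex `v` and each proper `r`-colouring of `F - v`, the vertex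
`v` has at least two out-neighbours of each colour. (2) For `r, k ≥ 2` the graph consisting of `k`
cliques with `r + 1` vertices and exactly one common vertex has property (P). -/
theorem result :
    (∀ (W : Type) [Finite W] (F : SimpleGraph W) (r : ℕ), 2 ≤ r →
      (∃ (c : W) (col : W → Fin r), ColoursOff F c col) →
      (∃ (p : W → Fin r) (i₀ : Fin r), (∀ x y, F.Adj x y → p x = p y → p x = i₀) ∧
        ∀ x y z, p x = i₀ → p y = i₀ → p z = i₀ → F.Adj x y → F.Adj x z → y = z) →
      (∃ A : W → W → Prop, IsOr F A ∧ ∀ (v : W) (col : W → Fin r), ColoursOff F v col →
        ∀ b : Fin r, ∃ x y, x ≠ y ∧ A v x ∧ A v y ∧ col x = b ∧ col y = b) →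
      PropertyP F) ∧
    ∀ r k : ℕ, 2 ≤ r → 2 ≤ k → PropertyP (cfan r k) := by
  refine ⟨?_, cfan_propertyP⟩
  rintro W _ F r hr ⟨c, κ, hκ⟩ ⟨ρ, i₀, hρ, hρ2⟩ ⟨A, hA, hc⟩
  have : Fintype W := Fintype.ofFinite W
  have : Nonempty W := ⟨c⟩
  exact MP_0a9719_co_RN.fin_n F A hA r hr hc
    (MP_0a9719_co_RN.ind_nb hr F (MP_0a9719_co_RN.dense_nb hr F c κ hκ ρ i₀ hρ hρ2))

end Pool.Agent.Results.MP_0a9719_co.NearBipartite
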