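import Mathlib
import Pool.Agent.Lib.MP_0a9719_co_FR.GemW

/-!
# Graphs whose vertices split into two induced matchings

Let `F` be a finite graph whose vertices can be partitioned into two sets which both induce a graph
of maximum degree at most one, and let `F` become bipartite when at most `k ≥ 2` edges at one vertex
`c` are deleted.
(1) If `F` has an orientation such that for every set `J` of vertices whose complement is independent
    some vertex of `J` has at least `k` out-neighbours in `J`, then `F` has property (P).
Consequence: (2) if `k = 2` and the neighbourhood of `c` contains a path with three vertices and two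
disjoint edges, then `F` has (P); for instance a vertex joined to all vertices of a path with four or
five vertices.

Upper bound: a graph on `n` vertices without a copy of `F` has at most `n^2/4 + (k-1) n/4 + C` edges.
Lower bound: complete bipartite graphs with disjoint paths with three vertices (`k = 2`) or disjoint
complete graphs with `k + 1` vertices (`k ≥ 3`) in one class, with the orientations in which every
vertex has fewer than `k` out-neighbours in its own class.
-/

namespace Pool.Agent.Results.MP_0a9719_co.TwoMatchings

open _root_.MP_0a9719_co

/-- Let `F` be a finite graph whose vertices have a partition into `Q` and its complement such that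
every vertex has at most one neighbour on its own side.
(1) Let `k ≥ 2`, let `A` be an orientation of `F`, let `c` be a vertex and `K` a set of at most `k`
vertices such that `F - {cx : x ∈ K}` is bipartite, and suppose that for every `J` such that every
edge of `F` has an end in `J` some `v ∈ J` has at least `k` out-neighbours in `J`. Then `F` has
property (P).
(2) Let `c` be a vertex and `K` a set of at most two vertices such that `F - {cx : x ∈ K}` is
bipartite; suppose that there is a path `u v w` and that there are two disjoint edges `p p'`, `r r'`,
all their vertices being neighbours of `c`. Then `F` has (P). -/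
theorem result {W : Type*} [Finite W] (F : SimpleGraph W) (Q : Set W)
    (hQ : ∀ a ∈ Q, ∀ b ∈ Q, ∀ d ∈ Q, F.Adj a b → F.Adj a d → b = d)
    (hQc : ∀ a ∉ Q, ∀ b ∉ Q, ∀ d ∉ Q, F.Adj a b → F.Adj a d → b = d) :
    (∀ (k : ℕ) (A : W → W → Prop) (c : W) (K : Set W), 2 ≤ k → IsOr F A → K.ncard ≤ k →
      (F.deleteEdges {e | ∃ x ∈ K, e = s(c, x)}).Colorable 2 →
      (∀ J : Set W, (∀ a b, F.Adj a b → a ∈ J ∨ b ∈ J) →
        ∃ v ∈ J, k ≤ {u | u ∈ J ∧ A v u}.ncard) → PropertyP F) ∧
    (∀ (c : W) (K : Set W), K.ncard ≤ 2 →
      (F.deleteEdges {e | ∃ x ∈ K, e = s(c, x)}).Colorable 2 →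
      (∃ u v w, F.Adj c u ∧ F.Adj c v ∧ F.Adj c w ∧ F.Adj v u ∧ F.Adj v w ∧ u ≠ w) →
      (∃ p p' r r', F.Adj c p ∧ F.Adj c p' ∧ F.Adj p p' ∧ F.Adj c r ∧ F.Adj c r' ∧
        F.Adj r r' ∧ p ≠ r ∧ p ≠ r' ∧ p' ≠ r ∧ p' ≠ r') →
      PropertyP F) := by
  refine ⟨?_, ?_⟩
  · intro k A c K hk hA hK hbip h
    exact main_one F A hA k hk c K hK hbip Q hQ hQc h
  · intro c K hK hbip hpath hedges
    exact gem_type F c K hK hbip Q hQ hQc hpath hedges

end Pool.Agent.Results.MP_0a9719_co.TwoMatchings
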